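import Pool.Agent.Helper99.SZ.Stmts

/-! Module SUF: elements with a given factorization into powers of fixed primes. -/

set_option autoImplicit false

namespace Pool.Helper99.SZ

open NumberField IsDedekindDomain

section
variable {K : Type} [Field K] [NumberField K] {m : ℕ} {P : Fin m → Ideal (𝓞 K)}

theorem suf_ne (hP : ∀ j, P j ≠ ⊥) (j : Fin m) :
    ((P j : Ideal (𝓞 K)) : FractionalIdeal (nonZeroDivisors (𝓞 K)) K) ≠ 0 :=
  FractionalIdeal.coeIdeal_ne_zero.mpr (hP j)

theorem suf_add (hP : ∀ j, P j ≠ ⊥) {a b : Fin m → ℤ} {u w : Kˣ} (h1 : SU P a u)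
    (h2 : SU P b w) : SU P (a + b) (u * w) := by
  unfold SU at *
  rw [Units.val_mul, ← FractionalIdeal.spanSingleton_mul_spanSingleton, h1, h2,
    ← Finset.prod_mul_distrib]
  refine Finset.prod_congr rfl (fun j _ => ?_)
  rw [Pi.add_apply, zpow_add₀ (suf_ne hP j)]

theorem suf_neg {a : Fin m → ℤ} {u : Kˣ} (h1 : SU P a u) : SU P (-a) u⁻¹ := by
  unfold SU at *
  rw [Units.val_inv_eq_inv_val, ← FractionalIdeal.spanSingleton_inv, h1, ← Finset.prod_inv_distrib]
  refine Finset.prod_congr rfl (fun j _ => ?_)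
  rw [Pi.neg_apply, zpow_neg]

theorem suf_count (hinj : Function.Injective P) (hP : ∀ j, (P j).IsPrime ∧ P j ≠ ⊥)
    {a : Fin m → ℤ} {u : Kˣ} (h1 : SU P a u) (j : Fin m) :
    FractionalIdeal.count K (⟨P j, (hP j).1, (hP j).2⟩ : HeightOneSpectrum (𝓞 K))
      (FractionalIdeal.spanSingleton (nonZeroDivisors (𝓞 K)) (u : K)) = a j := by
  classical
  unfold SU at h1
  rw [h1, FractionalIdeal.count_prod]
  · rw [Finset.sum_eq_single j]
    · exact FractionalIdeal.count_zpow_self K (⟨P j, (hP j).1, (hP j).2⟩ :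
        HeightOneSpectrum (𝓞 K)) (a j)
    · intro i _ hi
      rw [FractionalIdeal.count_zpow]
      have hne : (⟨P i, (hP i).1, (hP i).2⟩ : HeightOneSpectrum (𝓞 K)) ≠
          ⟨P j, (hP j).1, (hP j).2⟩ := by
        intro h
        exact hi (hinj (congrArg HeightOneSpectrum.asIdeal h))
      have h2 := FractionalIdeal.count_maximal_coprime K
        (⟨P j, (hP j).1, (hP j).2⟩ : HeightOneSpectrum (𝓞 K)) hne
      rw [h2, mul_zero]
    · intro h
      exact absurd (Finset.mem_univ j) h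
  · intro i _
    exact zpow_ne_zero _ (suf_ne (fun j => (hP j).2) i)

theorem suf_mem_one {x : K} (h : FractionalIdeal.spanSingleton (nonZeroDivisors (𝓞 K)) x ≤ 1) :
    ∃ z : 𝓞 K, algebraMap (𝓞 K) K z = x := by
  have h1 : x ∈ (1 : FractionalIdeal (nonZeroDivisors (𝓞 K)) K) :=
    h (FractionalIdeal.mem_spanSingleton_self _ _)
  exact (FractionalIdeal.mem_one_iff _).1 h1

theorem suf_one (u : Kˣ) : SU P 0 u ↔ ∃ e : (𝓞 K)ˣ, (u : K) = ((e : 𝓞 K) : K) := by
  constructor
  · intro h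
    have h' := suf_neg h
    unfold SU at h h'
    simp only [Pi.zero_apply, Pi.neg_apply, neg_zero, zpow_zero, Finset.prod_const_one] at h h'
    obtain ⟨x, hx⟩ := suf_mem_one h.le
    obtain ⟨y, hy⟩ := suf_mem_one h'.le
    have hxy : x * y = 1 := by
      apply FaithfulSMul.algebraMap_injective (𝓞 K) K
      rw [map_mul, hx, hy, map_one, Units.mul_inv]
    exact ⟨⟨x, y, hxy, by rw [mul_comm]; exact hxy⟩, hx.symm⟩
  · rintro ⟨e, he⟩
    unfold SU
    simp only [Pi.zero_apply, zpow_zero, Finset.prod_const_one]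
    have h1 : FractionalIdeal.spanSingleton (nonZeroDivisors (𝓞 K)) (u : K) =
        ((Ideal.span {(e : 𝓞 K)} : Ideal (𝓞 K)) :
          FractionalIdeal (nonZeroDivisors (𝓞 K)) K) := by
      rw [FractionalIdeal.coeIdeal_span_singleton, he]
    rw [h1, Ideal.span_singleton_eq_top.2 e.isUnit, FractionalIdeal.coeIdeal_top]

theorem suf_int (hP : ∀ j, (P j).IsPrime ∧ P j ≠ ⊥) {a : Fin m → ℤ} {u : Kˣ} (h1 : SU P a u) :
    ∃ z : 𝓞 K, algebraMap (𝓞 K) K z =
      ((∏ j, Ideal.absNorm (P j) ^ ((a j).natAbs) : ℕ) : K) * u := by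
  have key : ∀ j, ∃ M : Ideal (𝓞 K),
      FractionalIdeal.spanSingleton (nonZeroDivisors (𝓞 K)) ((Ideal.absNorm (P j) : ℕ) : K) ^
        ((a j).natAbs) *
        ((P j : Ideal (𝓞 K)) : FractionalIdeal (nonZeroDivisors (𝓞 K)) K) ^ (a j) =
      ((M : Ideal (𝓞 K)) : FractionalIdeal (nonZeroDivisors (𝓞 K)) K) := by
    intro j
    have h2 : FractionalIdeal.spanSingleton (nonZeroDivisors (𝓞 K))
        ((Ideal.absNorm (P j) : ℕ) : K) = ((Ideal.span {((Ideal.absNorm (P j) : ℕ) : 𝓞 K)} :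
          Ideal (𝓞 K)) : FractionalIdeal (nonZeroDivisors (𝓞 K)) K) := by
      rw [FractionalIdeal.coeIdeal_span_singleton, map_natCast]
    obtain ⟨J, hJ⟩ : ∃ J, Ideal.span {((Ideal.absNorm (P j) : ℕ) : 𝓞 K)} = P j * J :=
      Ideal.dvd_span_singleton.2 (Ideal.absNorm_mem (P j))
    rcases le_or_gt 0 (a j) with h | h
    · refine ⟨(Ideal.span {((Ideal.absNorm (P j) : ℕ) : 𝓞 K)}) ^ ((a j).natAbs) *
        P j ^ ((a j).natAbs), ?_⟩
      have h3 : ((P j : Ideal (𝓞 K)) : FractionalIdeal (nonZeroDivisors (𝓞 K)) K) ^ (a j) =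
          ((P j : Ideal (𝓞 K)) : FractionalIdeal (nonZeroDivisors (𝓞 K)) K) ^
            ((a j).natAbs) := by
        conv_lhs => rw [← Int.natAbs_of_nonneg h]
        rw [zpow_natCast]
      rw [h3, h2, FractionalIdeal.coeIdeal_mul, FractionalIdeal.coeIdeal_pow,
        FractionalIdeal.coeIdeal_pow]
    · refine ⟨J ^ ((a j).natAbs), ?_⟩
      have h3 : a j = -((a j).natAbs : ℤ) := by omega
      have h4 : ((P j : Ideal (𝓞 K)) : FractionalIdeal (nonZeroDivisors (𝓞 K)) K) ^ (a j) =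
          (((P j : Ideal (𝓞 K)) : FractionalIdeal (nonZeroDivisors (𝓞 K)) K) ^
            ((a j).natAbs))⁻¹ := by
        conv_lhs => rw [h3]
        rw [zpow_neg, zpow_natCast]
      rw [h4, h2, hJ, FractionalIdeal.coeIdeal_mul, mul_pow, FractionalIdeal.coeIdeal_pow,
        mul_comm, ← mul_assoc, inv_mul_cancel₀ (pow_ne_zero _ (suf_ne (fun j => (hP j).2) j)),
        one_mul]
  choose M hM using key
  apply suf_mem_one
  have h5 : FractionalIdeal.spanSingleton (nonZeroDivisors (𝓞 K))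
      (((∏ j, Ideal.absNorm (P j) ^ ((a j).natAbs) : ℕ) : K) * u) =
      ((∏ j, M j : Ideal (𝓞 K)) : FractionalIdeal (nonZeroDivisors (𝓞 K)) K) := by
    rw [← FractionalIdeal.spanSingleton_mul_spanSingleton]
    unfold SU at h1
    rw [h1]
    have h6 : FractionalIdeal.spanSingleton (nonZeroDivisors (𝓞 K))
        ((∏ j, Ideal.absNorm (P j) ^ ((a j).natAbs) : ℕ) : K) =
        ∏ j, FractionalIdeal.spanSingleton (nonZeroDivisors (𝓞 K))
          ((Ideal.absNorm (P j) : ℕ) : K) ^ ((a j).natAbs) := by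
      have h7 : ∀ s : Finset (Fin m), FractionalIdeal.spanSingleton (nonZeroDivisors (𝓞 K))
          ((∏ j ∈ s, Ideal.absNorm (P j) ^ ((a j).natAbs) : ℕ) : K) =
          ∏ j ∈ s, FractionalIdeal.spanSingleton (nonZeroDivisors (𝓞 K))
            ((Ideal.absNorm (P j) : ℕ) : K) ^ ((a j).natAbs) := by
        classical
        intro s
        induction s using Finset.induction with
        | empty => simp
        | insert i s hi ih =>
          rw [Finset.prod_insert hi, Finset.prod_insert hi, Nat.cast_mul,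
            ← FractionalIdeal.spanSingleton_mul_spanSingleton, ih, Nat.cast_pow,
            FractionalIdeal.spanSingleton_pow]
      exact h7 _
    rw [h6, ← Finset.prod_mul_distrib]
    have h8 : ∀ s : Finset (Fin m), ((∏ j ∈ s, M j : Ideal (𝓞 K)) :
        FractionalIdeal (nonZeroDivisors (𝓞 K)) K) =
        ∏ j ∈ s, ((M j : Ideal (𝓞 K)) : FractionalIdeal (nonZeroDivisors (𝓞 K)) K) := by
      classical
      intro s
      induction s using Finset.induction with
      | empty => simp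
      | insert i s hi ih =>
        rw [Finset.prod_insert hi, Finset.prod_insert hi, FractionalIdeal.coeIdeal_mul, ih]
    rw [h8]
    exact Finset.prod_congr rfl (fun j _ => hM j)
  rw [h5]
  exact FractionalIdeal.coeIdeal_le_one

theorem suf_fin (hP : ∀ j, (P j).IsPrime ∧ P j ≠ ⊥) (B : ℝ) :
    {x : Kˣ | ∃ a, SU P a x ∧ (∀ j, |((a j : ℤ) : ℝ)| ≤ B) ∧
      ∀ σ : K →+* ℂ, |Real.log ‖σ (x : K)‖| ≤ B}.Finite := by
  classical
  set q : ℕ := ∏ j, Ideal.absNorm (P j) ^ ⌊B⌋₊ with hq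
  have hNpos : ∀ j, Ideal.absNorm (P j) ≠ 0 := fun j h => (hP j).2 (Ideal.absNorm_eq_zero_iff.1 h)
  have hq0 : q ≠ 0 := by
    rw [hq, Finset.prod_ne_zero_iff]
    exact fun j _ => pow_ne_zero _ (hNpos j)
  have hqK : (q : K) ≠ 0 := Nat.cast_ne_zero.2 hq0
  have hfin := NumberField.Embeddings.finite_of_norm_le K ℂ ((q : ℝ) * Real.exp B)
  refine Set.Finite.of_finite_image (f := fun x : Kˣ => (q : K) * (x : K))
    (hfin.subset ?_) ?_
  · rintro _ ⟨x, ⟨a, h1, h2, h3⟩, rfl⟩
    refine ⟨?_, ?_⟩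
    · obtain ⟨z, hz⟩ := suf_int hP h1
      have hdvd : (∏ j, Ideal.absNorm (P j) ^ ((a j).natAbs)) ∣ q := by
        rw [hq]
        refine Finset.prod_dvd_prod_of_dvd _ _ (fun j _ => pow_dvd_pow _ ?_)
        refine Nat.le_floor ?_
        have h4 := h2 j
        rw [Nat.cast_natAbs, Int.cast_abs]
        exact h4
      obtain ⟨k, hk⟩ := hdvd
      have h5 : (q : K) * (x : K) = algebraMap (𝓞 K) K ((k : 𝓞 K) * z) := by
        rw [map_mul, hz, map_natCast, hk, Nat.cast_mul]
        ring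
      simp only
      rw [h5]
      exact RingOfIntegers.isIntegral_coe _
    · intro φ
      simp only
      rw [map_mul, norm_mul, map_natCast, Complex.norm_natCast]
      refine mul_le_mul_of_nonneg_left ?_ (Nat.cast_nonneg _)
      have h4 := h3 φ
      have h5 : φ (x : K) ≠ 0 := by
        rw [Ne, map_eq_zero]
        exact x.ne_zero
      have h6 : 0 < ‖φ (x : K)‖ := norm_pos_iff.2 h5
      rw [← Real.log_le_iff_le_exp h6]
      exact (le_abs_self _).trans h4
  · intro x _ y _ hxy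
    simp only at hxy
    exact Units.ext (mul_left_cancel₀ hqK hxy)

end

theorem st_SUF : ST_SUF := by
  intro K _ _ m P hinj hP
  refine ⟨fun a b u w h1 h2 => suf_add (fun j => (hP j).2) h1 h2, fun a u h => suf_neg h,
    ?_, fun u => suf_one u, ?_, suf_fin hP⟩
  · intro a b u h1 h2
    funext j
    rw [← suf_count hinj hP h1 j, ← suf_count hinj hP h2 j]
  · intro a u h q hq
    obtain ⟨z, hz⟩ := suf_int hP h
    have h1 : q = ∏ j, Ideal.absNorm (P j) ^ ((a j).natAbs) := by
      have h2 : (q : ℝ) = ((∏ j, Ideal.absNorm (P j) ^ ((a j).natAbs) : ℕ) : ℝ) := by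
        rw [hq]
        push_cast
        rfl
      exact_mod_cast h2
    rw [h1, ← hz]
    exact RingOfIntegers.isIntegral_coe _

end Pool.Helper99.SZ
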